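import Pool.Agent.Y58.HT.Stm

set_option autoImplicit false

/-!
A number which is not a root of unity has a conjugate with an absolute value different from one.
-/

universe u

namespace Pool.Agent.Y74.HT

open Polynomial Pool.Agent.Y58.HT

/-- The spectral norm on the algebraic closure of the field of `p`-adic numbers. -/
theorem exists_padic (p : ℕ) [Fact p.Prime] : ∃ w : AbsoluteValue (AlgebraicClosure ℚ_[p]) ℝ,
    (∀ x : ℚ_[p], w (algebraMap ℚ_[p] _ x) = ‖x‖) ∧ ∀ x y, w (x + y) ≤ max (w x) (w y) := by
  let N := spectralMulAlgNorm ℚ_[p] (AlgebraicClosure ℚ_[p])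
  refine ⟨{ toFun := fun x => N x
            map_mul' := fun x y => map_mul N x y
            nonneg' := fun x => apply_nonneg N x
            eq_zero' := fun x => map_eq_zero_iff_eq_zero N
            add_le' := fun x y => map_add_le_add N x y }, fun x => ?_, fun x y => ?_⟩
  · show spectralNorm _ _ _ = _
    exact spectralNorm_extends x
  · exact isNonarchimedean_spectralNorm x y

/-- If all roots of a monic rational polynomial have absolute value one, then the coefficients have absolute
value at most one. -/
theorem coeff_le {E : Type} [Field E] [CharZero E] [IsAlgClosed E] (w : AbsoluteValue E ℝ)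
    (hw : ∀ x y, w (x + y) ≤ max (w x) (w y)) (f : ℚ[X]) (hf : f.Monic)
    (h : ∀ z : E, aeval z f = 0 → w z = 1) (i : ℕ) : w (algebraMap ℚ E (f.coeff i)) ≤ 1 := by
  let O : Subring E :=
    { carrier := {x | w x ≤ 1}
      mul_mem' := fun {a b} ha hb => by
        show w (a * b) ≤ 1
        rw [map_mul]
        exact mul_le_one₀ ha (w.nonneg b) hb
      one_mem' := by
        show w 1 ≤ 1
        rw [map_one]
      add_mem' := fun {a b} ha hb => (hw a b).trans (max_le ha hb)
      zero_mem' := by
        show w 0 ≤ 1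
        rw [map_zero]
        exact zero_le_one
      neg_mem' := fun {a} ha => by
        show w (-a) ≤ 1
        rw [AbsoluteValue.map_neg]
        exact ha }
  have hs : (f.map (algebraMap ℚ E)).Splits := IsAlgClosed.splits _
  have hm : (f.map (algebraMap ℚ E)).Monic := hf.map _
  have h1 : f.map (algebraMap ℚ E) ∈ Polynomial.lifts O.subtype := by
    rw [hs.eq_prod_roots_of_monic hm]
    refine Subsemiring.multiset_prod_mem _ _ fun q hq => ?_
    obtain ⟨z, hz, rfl⟩ := Multiset.mem_map.1 hq
    have hz1 : w z = 1 := by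
      apply h
      rw [mem_roots hm.ne_zero, IsRoot, eval_map_algebraMap] at hz
      exact hz
    have hX : (X : E[X]) ∈ Polynomial.lifts O.subtype := X_mem_lifts _
    have hC : C (-z) ∈ Polynomial.lifts O.subtype := by
      refine C_mem_lifts O.subtype (⟨-z, ?_⟩ : O)
      show w (-z) ≤ 1
      rw [AbsoluteValue.map_neg, hz1]
    have := Subsemiring.add_mem _ hX hC
    rwa [C_neg, ← sub_eq_add_neg] at this
  rw [lifts_iff_coeff_lifts] at h1
  obtain ⟨x, hx⟩ := h1 i
  rw [coeff_map] at hx
  rw [← hx]
  exact x.2

theorem t_avk : S_AVK := by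
  intro K _ _ l hl hl0 hroot
  set f := minpoly ℚ l with hf
  have hint : IsIntegral ℚ l := hl.isIntegral
  have hfm : f.Monic := minpoly.monic hint
  have hC : ∀ z : ℂ, aeval z f = 0 → ‖z‖ ≠ 1 → ∃ (E : Type) (_ : Field E) (_ : CharZero E)
      (_ : IsAlgClosed E) (_ : Uncountable E) (w : AbsoluteValue E ℝ) (l' : E),
      aeval l' (minpoly ℚ l) = 0 ∧ w l' ≠ 1 := by
    intro z hz hz1
    have hunc : Uncountable ℂ := by
      rw [← Cardinal.aleph0_lt_mk_iff, Cardinal.mk_complex]
      exact Cardinal.aleph0_lt_continuum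
    exact ⟨ℂ, inferInstance, inferInstance, inferInstance, hunc, NormedField.toAbsoluteValue ℂ, z,
      hz, hz1⟩
  by_cases hall : ∃ z : ℂ, aeval z f = 0 ∧ ‖z‖ ≠ 1
  · obtain ⟨z, hz, hz1⟩ := hall
    exact hC z hz hz1
  push Not at hall
  by_cases hZ : IsIntegral ℤ l
  · -- Kronecker
    exfalso
    have hfd : FiniteDimensional ℚ (IntermediateField.adjoin ℚ {l}) :=
      IntermediateField.adjoin.finiteDimensional hint
    have hnf : NumberField (IntermediateField.adjoin ℚ {l}) := { }
    have hg : IsIntegral ℤ (IntermediateField.AdjoinSimple.gen ℚ l) := by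
      have h1 : IsIntegral ℤ (algebraMap (IntermediateField.adjoin ℚ {l}) K
        (IntermediateField.AdjoinSimple.gen ℚ l)) := by
        rw [IntermediateField.AdjoinSimple.algebraMap_gen]
        exact hZ
      exact (isIntegral_algebraMap_iff (algebraMap (IntermediateField.adjoin ℚ {l}) K).injective).1
        h1
    obtain ⟨n, hn, h1⟩ := NumberField.Embeddings.pow_eq_one_of_norm_eq_one
      (IntermediateField.adjoin ℚ {l}) ℂ hg (by
        intro φ
        apply hall
        have h2 : aeval (IntermediateField.AdjoinSimple.gen ℚ l) f = 0 := by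
          rw [hf, ← IntermediateField.minpoly_gen ℚ l]
          exact minpoly.aeval _ _
        have h3 : aeval (φ.toRatAlgHom (IntermediateField.AdjoinSimple.gen ℚ l)) f = 0 := by
          rw [aeval_algHom_apply, h2, map_zero]
        exact h3)
    apply hroot n hn
    have h4 := congrArg (algebraMap (IntermediateField.adjoin ℚ {l}) K) h1
    rwa [map_pow, map_one, IntermediateField.AdjoinSimple.algebraMap_gen] at h4
  · -- a coefficient which is not an integer
    have h1 : ∃ i, f.coeff i ∉ Set.range (Int.castRingHom ℚ) := by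
      by_contra hno
      push Not at hno
      have h2 : f ∈ lifts (Int.castRingHom ℚ) := by
        rw [lifts_iff_coeff_lifts]
        exact hno
      obtain ⟨q, hq, -, hqm⟩ := lifts_and_natDegree_eq_and_monic h2 hfm
      apply hZ
      refine ⟨q, hqm, ?_⟩
      have h3 : aeval l f = 0 := minpoly.aeval ℚ l
      rw [← hq, aeval_def, eval₂_map] at h3
      have h6 : (algebraMap ℚ K).comp (Int.castRingHom ℚ) = algebraMap ℤ K := RingHom.ext_int _ _
      rw [h6] at h3
      exact h3
    obtain ⟨i, hi⟩ := h1
    have hd : (f.coeff i).den ≠ 1 := by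
      intro hd
      apply hi
      exact ⟨(f.coeff i).num, by rw [eq_intCast]; exact Rat.coe_int_num_of_den_eq_one hd⟩
    obtain ⟨p, hp, hpd⟩ := Nat.exists_prime_and_dvd hd
    have : Fact p.Prime := ⟨hp⟩
    have hnorm : 1 < ‖((f.coeff i : ℚ) : ℚ_[p])‖ := by
      by_contra hle
      rw [not_lt] at hle
      have h5 : ¬ p ∣ (f.coeff i).den := by
        simpa [Nat.Prime.coprime_iff_not_dvd hp] using
          PadicInt.isUnit_iff.1 (PadicInt.isUnit_den _ hle)
      exact h5 hpd
    obtain ⟨w, hw1, hw2⟩ := exists_padic p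
    have hunc : Uncountable (AlgebraicClosure ℚ_[p]) := by
      have h2 : Uncountable ℚ_[p] := by
        rw [← Cardinal.aleph0_lt_mk_iff]
        exact Cardinal.aleph0_lt_continuum.trans_le
          (continuum_le_cardinal_of_nontriviallyNormedField ℚ_[p])
      exact (algebraMap ℚ_[p] (AlgebraicClosure ℚ_[p])).injective.uncountable
    have hcz : CharZero (AlgebraicClosure ℚ_[p]) :=
      charZero_of_injective_algebraMap (algebraMap ℚ_[p] (AlgebraicClosure ℚ_[p])).injective
    by_contra hno
    have hall' : ∀ z : AlgebraicClosure ℚ_[p], aeval z f = 0 → w z = 1 := by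
      intro z hz
      by_contra hne
      exact hno ⟨AlgebraicClosure ℚ_[p], inferInstance, hcz, inferInstance, hunc, w, z, hz, hne⟩
    have h2 := coeff_le w hw2 f hfm hall' i
    have h3 : algebraMap ℚ (AlgebraicClosure ℚ_[p]) (f.coeff i) =
        algebraMap ℚ_[p] _ ((f.coeff i : ℚ) : ℚ_[p]) := by
      rw [eq_ratCast, map_ratCast]
    rw [h3, hw1] at h2
    exact absurd h2 (not_le.2 hnorm)

end Pool.Agent.Y74.HT
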